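import Mathlib

/-!
SENS: sensitivity of all prefixes of a cascade of reset registers.
Bit strings of length `n` are subsets `x` of `range n` (bit `j` is `j ∈ x`); flipping the
bits in `F` is the symmetric difference.
-/

namespace Pool.Agent.Helper45.RC

open Finset
open scoped symmDiff

variable {S V : Type}

/-- State after `t` bits of the program with transition functions `δ`. -/
def st (δ : ℕ → Prop → S → S) (s0 : S) (x : Finset ℕ) : ℕ → S
  | 0 => s0
  | t + 1 => δ t (t ∈ x) (st δ s0 x t)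

theorem st_congr_from {δ : ℕ → Prop → S → S} {s0 : S} {x y : Finset ℕ} {s : ℕ} :
    ∀ {t : ℕ}, s ≤ t → st δ s0 x s = st δ s0 y s →
      (∀ j, s ≤ j → j < t → (j ∈ x ↔ j ∈ y)) → st δ s0 x t = st δ s0 y t := by
  intro t
  induction t with
  | zero =>
    intro h h1 _
    have : s = 0 := by omega
    subst this
    exact h1
  | succ t ih =>
    intro h h1 h2
    rcases Nat.lt_or_ge t s with h3 | h3
    · have : s = t + 1 := by omega
      subst this
      exact h1
    · show δ t (t ∈ x) (st δ s0 x t) = δ t (t ∈ y) (st δ s0 y t)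
      rw [ih h3 h1 (fun j hj hj' => h2 j hj (by omega)), propext (h2 t h3 (by omega))]

theorem st_congr {δ : ℕ → Prop → S → S} {s0 : S} {x y : Finset ℕ} {t : ℕ}
    (h : ∀ j < t, (j ∈ x ↔ j ∈ y)) : st δ s0 x t = st δ s0 y t :=
  st_congr_from (Nat.zero_le t) rfl (fun j _ hj => h j hj)

theorem mem_flip {x : Finset ℕ} {i j : ℕ} (h : j ≠ i) : j ∈ x ∆ {i} ↔ j ∈ x := by
  simp [mem_symmDiff, h]

theorem mem_flip_self {x : Finset ℕ} {i : ℕ} : i ∈ x ∆ {i} ↔ i ∉ x := by
  simp [mem_symmDiff]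

theorem mem_flipF {x F : Finset ℕ} {j : ℕ} (h : j ∉ F) : j ∈ x ∆ F ↔ j ∈ x := by
  simp [mem_symmDiff, h]

theorem mem_flipF_self {x F : Finset ℕ} {j : ℕ} (h : j ∈ F) : j ∈ x ∆ F ↔ j ∉ x := by
  simp [mem_symmDiff, h]

open Classical in
/-- The positions `i < t` whose flip changes the state after `t` bits. -/
noncomputable def sens (δ : ℕ → Prop → S → S) (s0 : S) (x : Finset ℕ) (t : ℕ) : Finset ℕ :=
  (range t).filter (fun i => st δ s0 (x ∆ {i}) t ≠ st δ s0 x t)

theorem mem_sens {δ : ℕ → Prop → S → S} {s0 : S} {x : Finset ℕ} {t i : ℕ} :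
    i ∈ sens δ s0 x t ↔ i < t ∧ st δ s0 (x ∆ {i}) t ≠ st δ s0 x t := by
  simp [sens]

theorem sens_interval {δ : ℕ → Prop → S → S} {s0 : S} {x : Finset ℕ} {i s s' : ℕ}
    (h : i ∈ sens δ s0 x s) (h1 : i < s') (h2 : s' ≤ s) : i ∈ sens δ s0 x s' := by
  rw [mem_sens] at h ⊢
  refine ⟨h1, fun h3 => h.2 (st_congr_from h2 h3 (fun j hj _ => mem_flip (by omega)))⟩

theorem st_flip_of_le {δ : ℕ → Prop → S → S} {s0 : S} {x : Finset ℕ} {i s : ℕ} (h : s ≤ i) :
    st δ s0 (x ∆ {i}) s = st δ s0 x s :=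
  st_congr (fun j hj => mem_flip (by omega))

theorem st_flip_of_not_mem {δ : ℕ → Prop → S → S} {s0 : S} {x : Finset ℕ} {i s : ℕ}
    (h : i ∉ sens δ s0 x s) : st δ s0 (x ∆ {i}) s = st δ s0 x s := by
  rcases Nat.lt_or_ge i s with h1 | h1
  · by_contra h2
    exact h (mem_sens.mpr ⟨h1, h2⟩)
  · exact st_flip_of_le h1

/-- `F` is independent at `x`: lifetimes of the flips are disjoint. -/
def Indep (δ : ℕ → Prop → S → S) (s0 : S) (x F : Finset ℕ) : Prop :=
  ∀ i ∈ F, ∀ j ∈ F, i < j → i ∉ sens δ s0 x j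

theorem Indep.mono {δ : ℕ → Prop → S → S} {s0 : S} {x F F' : Finset ℕ}
    (h : Indep δ s0 x F) (hF : F' ⊆ F) : Indep δ s0 x F' :=
  fun i hi j hj hij => h i (hF hi) j (hF hj) hij

theorem Indep.unique {δ : ℕ → Prop → S → S} {s0 : S} {x F : Finset ℕ}
    (h : Indep δ s0 x F) {i j s : ℕ} (hi : i ∈ F) (hj : j ∈ F) (hi' : i ∈ sens δ s0 x s)
    (hj' : j ∈ sens δ s0 x s) : i = j := by
  rcases lt_trichotomy i j with hij | hij | hij
  · exact absurd (sens_interval hi' hij (mem_sens.mp hj').1.le) (h i hi j hj hij)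
  · exact hij
  · exact absurd (sens_interval hj' hij (mem_sens.mp hi').1.le) (h j hj i hi hij)

/-- The key description of the lower states after flipping an independent set. -/
theorem flip_indep {δ : ℕ → Prop → S → S} {s0 : S} {x F : Finset ℕ}
    (h : Indep δ s0 x F) : ∀ s : ℕ,
      ((∀ i ∈ F, i ∉ sens δ s0 x s) → st δ s0 (x ∆ F) s = st δ s0 x s) ∧
      (∀ i ∈ F, i ∈ sens δ s0 x s → st δ s0 (x ∆ F) s = st δ s0 (x ∆ {i}) s) := by
  intro s
  induction s with
  | zero => exact ⟨fun _ => rfl, fun i _ _ => rfl⟩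
  | succ s ih =>
    by_cases hA : ∃ i ∈ F, i ∈ sens δ s0 x s
    · obtain ⟨i, hiF, his⟩ := hA
      have his' := (mem_sens.mp his).1
      have hsF : s ∉ F := fun hs => h i hiF s hs his' his
      have hst : st δ s0 (x ∆ F) (s + 1) = st δ s0 (x ∆ {i}) (s + 1) := by
        show δ s (s ∈ x ∆ F) (st δ s0 (x ∆ F) s) = δ s (s ∈ x ∆ {i}) (st δ s0 (x ∆ {i}) s)
        rw [ih.2 i hiF his, propext (mem_flipF hsF),
          propext (mem_flip (x := x) (i := i) (j := s) (by omega))]
      refine ⟨fun ha => ?_, fun i' hi' his2 => ?_⟩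
      · rw [hst]
        exact st_flip_of_not_mem (ha i hiF)
      · have hi's : i' < s := by
          have := (mem_sens.mp his2).1
          have h2 : i' ≠ s := fun h3 => hsF (h3 ▸ hi')
          omega
        have : i' = i := h.unique hi' hiF (sens_interval his2 hi's (by omega)) his
        rw [this]
        exact hst
    · push Not at hA
      have hs0 := ih.1 hA
      by_cases hsF : s ∈ F
      · have hst : st δ s0 (x ∆ F) (s + 1) = st δ s0 (x ∆ {s}) (s + 1) := by
          show δ s (s ∈ x ∆ F) (st δ s0 (x ∆ F) s) = δ s (s ∈ x ∆ {s}) (st δ s0 (x ∆ {s}) s)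
          rw [hs0, propext (mem_flipF_self hsF), propext (mem_flip_self (x := x) (i := s)),
            st_flip_of_le le_rfl]
        refine ⟨fun ha => ?_, fun i' hi' his2 => ?_⟩
        · rw [hst]
          exact st_flip_of_not_mem (ha s hsF)
        · rcases Nat.lt_or_ge i' s with h1 | h1
          · exact absurd (sens_interval his2 h1 (by omega)) (hA i' hi')
          · have : i' = s := by
              have := (mem_sens.mp his2).1
              omega
            rw [this]
            exact hst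
      · have hst : st δ s0 (x ∆ F) (s + 1) = st δ s0 x (s + 1) := by
          show δ s (s ∈ x ∆ F) (st δ s0 (x ∆ F) s) = δ s (s ∈ x) (st δ s0 x s)
          rw [hs0, propext (mem_flipF hsF)]
        refine ⟨fun _ => hst, fun i' hi' his2 => ?_⟩
        have h1 : i' < s := by
          have := (mem_sens.mp his2).1
          have h2 : i' ≠ s := fun h3 => hsF (h3 ▸ hi')
          omega
        exact absurd (sens_interval his2 h1 (by omega)) (hA i' hi')

/-! ### The top register -/

/-- `δ` with one more reset register on top. -/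
def up (δ : ℕ → Prop → S → S) (γ : ℕ → Prop → S → Option V) : ℕ → Prop → S × V → S × V :=
  fun t b s => (δ t b s.1, (γ t b s.1).getD s.2)

theorem st_up_fst (δ : ℕ → Prop → S → S) (γ : ℕ → Prop → S → Option V) (s0 : S) (v0 : V)
    (x : Finset ℕ) : ∀ t, (st (up δ γ) (s0, v0) x t).1 = st δ s0 x t
  | 0 => rfl
  | t + 1 => by
      show δ t (t ∈ x) (st (up δ γ) (s0, v0) x t).1 = _
      rw [st_up_fst δ γ s0 v0 x t]
      rfl

/-- The top register is overwritten at time `j`. -/
def Rst (δ : ℕ → Prop → S → S) (γ : ℕ → Prop → S → Option V) (s0 : S) (x : Finset ℕ)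
    (j : ℕ) : Prop := γ j (j ∈ x) (st δ s0 x j) ≠ none

theorem rst_congr {δ : ℕ → Prop → S → S} {γ : ℕ → Prop → S → Option V} {s0 : S}
    {x y : Finset ℕ} {j : ℕ} (h1 : j ∈ x ↔ j ∈ y) (h2 : st δ s0 x j = st δ s0 y j) :
    Rst δ γ s0 x j ↔ Rst δ γ s0 y j := by
  unfold Rst
  rw [propext h1, h2]

theorem top_no_reset {δ : ℕ → Prop → S → S} {γ : ℕ → Prop → S → Option V} {s0 : S} {v0 : V}
    {x : Finset ℕ} {s : ℕ} : ∀ {t : ℕ}, s ≤ t → (∀ j, s ≤ j → j < t → ¬ Rst δ γ s0 x j) →
      (st (up δ γ) (s0, v0) x t).2 = (st (up δ γ) (s0, v0) x s).2 := by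
  intro t
  induction t with
  | zero =>
    intro h _
    have : s = 0 := by omega
    rw [this]
  | succ t ih =>
    intro h h1
    rcases Nat.lt_or_ge t s with h3 | h3
    · have : s = t + 1 := by omega
      rw [this]
    · show (γ t (t ∈ x) (st (up δ γ) (s0, v0) x t).1).getD (st (up δ γ) (s0, v0) x t).2 = _
      have h4 := h1 t h3 (by omega)
      unfold Rst at h4
      rw [not_not] at h4
      rw [st_up_fst, h4, Option.getD_none]
      exact ih h3 (fun j hj hj' => h1 j hj (by omega))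

theorem st_up_after_reset {δ : ℕ → Prop → S → S} {γ : ℕ → Prop → S → Option V} {s0 : S}
    {v0 : V} {x y : Finset ℕ} {j : ℕ} (h1 : j ∈ x ↔ j ∈ y) (h2 : st δ s0 x j = st δ s0 y j)
    (h3 : Rst δ γ s0 x j) :
    st (up δ γ) (s0, v0) x (j + 1) = st (up δ γ) (s0, v0) y (j + 1) := by
  show (δ j (j ∈ x) (st (up δ γ) (s0, v0) x j).1,
    (γ j (j ∈ x) (st (up δ γ) (s0, v0) x j).1).getD (st (up δ γ) (s0, v0) x j).2) =
    (δ j (j ∈ y) (st (up δ γ) (s0, v0) y j).1,
    (γ j (j ∈ y) (st (up δ γ) (s0, v0) y j).1).getD (st (up δ γ) (s0, v0) y j).2)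
  rw [st_up_fst, st_up_fst]
  unfold Rst at h3
  rw [← h2, ← propext h1]
  obtain ⟨v, hv⟩ := Option.ne_none_iff_exists'.mp h3
  rw [hv]
  rfl

open Classical in
/-- The positions whose flip creates a reset in the reset-free zone `[L, t)` of `x`. -/
noncomputable def newR (δ : ℕ → Prop → S → S) (γ : ℕ → Prop → S → Option V) (s0 : S)
    (x : Finset ℕ) (L t : ℕ) : Finset ℕ :=
  (range t).filter (fun i => L ≤ i ∧ ∃ j, i ≤ j ∧ j < t ∧ Rst δ γ s0 (x ∆ {i}) j)

/-- `[L, t)` is the final reset-free zone of `x`. -/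
def Zone (δ : ℕ → Prop → S → S) (γ : ℕ → Prop → S → Option V) (s0 : S)
    (x : Finset ℕ) (t L : ℕ) : Prop :=
  L ≤ t ∧ (∀ j, L ≤ j → j < t → ¬ Rst δ γ s0 x j) ∧
    (L = 0 ∨ ∃ l, L = l + 1 ∧ Rst δ γ s0 x l)

theorem exists_zone (δ : ℕ → Prop → S → S) (γ : ℕ → Prop → S → Option V) (s0 : S)
    (x : Finset ℕ) : ∀ t, ∃ L, Zone δ γ s0 x t L
  | 0 => ⟨0, le_rfl, fun j _ hj => by omega, Or.inl rfl⟩
  | t + 1 => by
      by_cases h : Rst δ γ s0 x t
      · exact ⟨t + 1, le_rfl, fun j hj hj' => by omega, Or.inr ⟨t, rfl, h⟩⟩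
      · obtain ⟨L, h1, h2, h3⟩ := exists_zone δ γ s0 x t
        refine ⟨L, by omega, fun j hj hj' => ?_, h3⟩
        rcases Nat.lt_or_ge j t with h4 | h4
        · exact h2 j hj h4
        · have : j = t := by omega
          rw [this]; exact h

theorem sens_up_subset {δ : ℕ → Prop → S → S} {γ : ℕ → Prop → S → Option V} {s0 : S} {v0 : V}
    {x : Finset ℕ} {t L : ℕ} (hz : Zone δ γ s0 x t L) :
    sens (up δ γ) (s0, v0) x t ⊆ sens δ s0 x t ∪ insert (L - 1) (sens δ s0 x (L - 1)) ∪
      newR δ γ s0 x L t := by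
  obtain ⟨hL, hno, hL0⟩ := hz
  intro i hi
  obtain ⟨hit, hne⟩ := mem_sens.mp hi
  by_cases h1 : i ∈ sens δ s0 x t
  · simp [h1]
  have hlow : st δ s0 (x ∆ {i}) t = st δ s0 x t := st_flip_of_not_mem h1
  rcases Nat.lt_or_ge i L with hiL | hiL
  · -- before the zone
    rcases hL0 with h0 | ⟨l, hl, hlr⟩
    · omega
    · subst hl
      simp only [Nat.add_sub_cancel]
      by_cases h2 : i = l
      · simp [h2]
      by_cases h3 : i ∈ sens δ s0 x l
      · simp [h3]
      exfalso
      apply hne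
      have h4 : st δ s0 (x ∆ {i}) l = st δ s0 x l := st_flip_of_not_mem h3
      have h5 : l ∈ x ∆ {i} ↔ l ∈ x := mem_flip (by omega)
      have h6 := st_up_after_reset (v0 := v0) h5.symm h4.symm hlr
      exact st_congr_from hL h6.symm (fun j hj _ => mem_flip (by omega))
  · -- in the zone
    have : i ∈ newR δ γ s0 x L t := by
      simp only [newR, mem_filter, mem_range]
      refine ⟨hit, hiL, ?_⟩
      by_contra hcon
      push Not at hcon
      apply hne
      have e1 : (st (up δ γ) (s0, v0) (x ∆ {i}) t).2 = (st (up δ γ) (s0, v0) x t).2 := by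
        rw [top_no_reset hit.le (fun j hj hj' => hcon j hj hj'),
          top_no_reset hit.le (fun j hj hj' => hno j (by omega) hj'), st_flip_of_le le_rfl]
      have e2 : (st (up δ γ) (s0, v0) (x ∆ {i}) t).1 = (st (up δ γ) (s0, v0) x t).1 := by
        rw [st_up_fst, st_up_fst, hlow]
      exact Prod.ext e2 e1
    simp [this]

/-- Greedy choice of an independent subset. -/
theorem exists_indep {δ : ℕ → Prop → S → S} {s0 : S} {x : Finset ℕ} {Λ : ℕ} :
    ∀ (k : ℕ) (I : Finset ℕ), #I ≤ k → (∀ i ∈ I, #(sens δ s0 x i) ≤ Λ) →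
      ∃ K ⊆ I, Indep δ s0 x K ∧ #I ≤ (1 + Λ) * #K := by
  intro k
  induction k with
  | zero =>
    intro I hI _
    refine ⟨∅, by simp, by intro i hi; simp at hi, by simpa using hI⟩
  | succ k ih =>
    intro I hI hΛ
    rcases I.eq_empty_or_nonempty with rfl | hne
    · exact ⟨∅, by simp, by intro i hi; simp at hi, by simp⟩
    set i := I.max' hne with hi
    have hiI : i ∈ I := I.max'_mem hne
    set I' := (I.erase i) \ sens δ s0 x i with hI'
    have hc1 : #I ≤ 1 + Λ + #I' := by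
      have h1 : #(I.erase i) ≤ #(I' ) + #(sens δ s0 x i) := by
        rw [hI']
        have := Finset.card_le_card (show I.erase i ⊆
          ((I.erase i) \ sens δ s0 x i) ∪ sens δ s0 x i from by
            intro a ha
            by_cases hb : a ∈ sens δ s0 x i <;> simp [hb] at ha ⊢
            exact ha)
        exact this.trans (card_union_le _ _)
      have h2 := card_erase_add_one hiI
      have h3 := hΛ i hiI
      omega
    have hlt : #I' ≤ k := by
      have h1 : #I' ≤ #(I.erase i) := card_le_card sdiff_subset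
      have h2 := card_erase_add_one hiI
      omega
    obtain ⟨K', hK'1, hK'2, hK'3⟩ := ih I' hlt (fun j hj => hΛ j (by
      have := (mem_sdiff.mp hj).1
      exact mem_of_mem_erase this))
    have hiK' : i ∉ K' := fun h => by
      have := (mem_sdiff.mp (hK'1 h)).1
      exact (mem_erase.mp this).1 rfl
    refine ⟨insert i K', ?_, ?_, ?_⟩
    · intro j hj
      rcases mem_insert.mp hj with rfl | hj
      · exact hiI
      · exact mem_of_mem_erase (mem_sdiff.mp (hK'1 hj)).1
    · intro p hp q hq hpq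
      rcases mem_insert.mp hq with rfl | hq
      · rcases mem_insert.mp hp with rfl | hp
        · omega
        · exact (mem_sdiff.mp (hK'1 hp)).2
      · rcases mem_insert.mp hp with rfl | hp
        · have : q ≤ i := I.le_max' q (mem_of_mem_erase (mem_sdiff.mp (hK'1 hq)).1)
          omega
        · exact hK'2 p hp q hq hpq
    · rw [card_insert_of_notMem hiK']
      calc #I ≤ 1 + Λ + #I' := hc1
        _ ≤ 1 + Λ + (1 + Λ) * #K' := by omega
        _ = (1 + Λ) * (#K' + 1) := by ring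

/-! ### Peeling off the largest flip -/

/-- `j` is the last reset of `y` before `t`. -/
def IsLast (δ : ℕ → Prop → S → S) (γ : ℕ → Prop → S → Option V) (s0 : S)
    (y : Finset ℕ) (t j : ℕ) : Prop :=
  j < t ∧ Rst δ γ s0 y j ∧ ∀ j', j < j' → j' < t → ¬ Rst δ γ s0 y j'

theorem IsLast.unique {δ : ℕ → Prop → S → S} {γ : ℕ → Prop → S → Option V} {s0 : S}
    {y : Finset ℕ} {t j j' : ℕ} (h : IsLast δ γ s0 y t j) (h' : IsLast δ γ s0 y t j') :
    j = j' := by
  rcases lt_trichotomy j j' with h1 | h1 | h1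
  · exact absurd h'.2.1 (h.2.2 j' h1 h'.1)
  · exact h1
  · exact absurd h.2.1 (h'.2.2 j h1 h.1)

theorem exists_isLast {δ : ℕ → Prop → S → S} {γ : ℕ → Prop → S → Option V} {s0 : S}
    {y : Finset ℕ} : ∀ {t j0 : ℕ}, j0 < t → Rst δ γ s0 y j0 → ∃ j, j0 ≤ j ∧ IsLast δ γ s0 y t j
  | 0, j0, h, _ => by omega
  | t + 1, j0, h, hr => by
      by_cases h1 : Rst δ γ s0 y t
      · exact ⟨t, by omega, by omega, h1, fun j' h2 h3 => by omega⟩
      · have h2 : j0 ≠ t := fun h3 => h1 (h3 ▸ hr)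
        obtain ⟨j, hj1, hj2, hj3, hj4⟩ := exists_isLast (t := t) (by omega) hr
        refine ⟨j, hj1, by omega, hj3, fun j' h3 h4 => ?_⟩
        rcases Nat.lt_or_ge j' t with h5 | h5
        · exact hj4 j' h3 h5
        · have : j' = t := by omega
          rw [this]; exact h1

open Classical in
/-- Candidates for the largest flip. -/
noncomputable def cand (δ : ℕ → Prop → S → S) (γ : ℕ → Prop → S → Option V) (s0 : S)
    (y : Finset ℕ) (t : ℕ) : Finset ℕ :=
  if h : ∃ j, IsLast δ γ s0 y t j then insert h.choose (sens δ s0 y h.choose) else ∅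

theorem cand_eq {δ : ℕ → Prop → S → S} {γ : ℕ → Prop → S → Option V} {s0 : S}
    {y : Finset ℕ} {t j : ℕ} (h : IsLast δ γ s0 y t j) :
    cand δ γ s0 y t = insert j (sens δ s0 y j) := by
  have hex : ∃ j, IsLast δ γ s0 y t j := ⟨j, h⟩
  unfold cand
  rw [dif_pos hex]
  have := hex.choose_spec.unique h
  rw [this]

theorem card_cand_le {δ : ℕ → Prop → S → S} {γ : ℕ → Prop → S → Option V} {s0 : S}
    {y : Finset ℕ} {t Λ : ℕ} (h : ∀ j < t, #(sens δ s0 y j) ≤ Λ) :
    #(cand δ γ s0 y t) ≤ 1 + Λ := by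
  unfold cand
  split_ifs with hex
  · have h1 := h _ hex.choose_spec.1
    have := card_insert_le hex.choose (sens δ s0 y hex.choose)
    omega
  · simp

theorem flip_erase {x F : Finset ℕ} {i : ℕ} (hi : i ∈ F) : x ∆ F ∆ {i} = x ∆ (F.erase i) := by
  rw [symmDiff_assoc]
  congr 1
  ext j
  by_cases h : j = i
  · subst h; simp [mem_symmDiff, hi]
  · simp [mem_symmDiff, h]

theorem max_mem_cand {δ : ℕ → Prop → S → S} {γ : ℕ → Prop → S → Option V} {s0 : S}
    {x F : Finset ℕ} {t L i : ℕ} (hz : Zone δ γ s0 x t L) (hF : Indep δ s0 x F)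
    (hFI : F ⊆ newR δ γ s0 x L t) (hi : i ∈ F) (hmax : ∀ j ∈ F, j ≤ i) :
    i ∈ cand δ γ s0 (x ∆ F) t := by
  obtain ⟨hL, hno, -⟩ := hz
  have hiI := hFI hi
  simp only [newR, mem_filter, mem_range] at hiI
  obtain ⟨hit, hiL, j0, hj0i, hj0t, hj0r⟩ := hiI
  -- no other flip is alive from `i` on
  have hother : ∀ s, i ≤ s → ∀ i' ∈ F, i' ≠ i → i' ∉ sens δ s0 x s := by
    intro s hs i' hi' hne hmem
    have h1 : i' < i := lt_of_le_of_ne (hmax i' hi') hne
    exact hF i' hi' i hi h1 (sens_interval hmem h1 hs)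
  -- the reset of `x ^ i` at `j0` is alive
  have hj0A : j0 = i ∨ i ∈ sens δ s0 x j0 := by
    by_contra hcon
    push Not at hcon
    refine hno j0 (by omega) hj0t ?_
    exact (rst_congr (mem_flip hcon.1) (st_flip_of_not_mem hcon.2)).mp hj0r
  -- at the points of `A_i` the resets of `x ∆ F` are those of `x ^ i`
  have hR2 : ∀ s, (s = i ∨ i ∈ sens δ s0 x s) →
      (Rst δ γ s0 (x ∆ F) s ↔ Rst δ γ s0 (x ∆ {i}) s) := by
    intro s hs
    rcases hs with rfl | hs
    · apply rst_congr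
      · rw [mem_flipF_self hi, mem_flip_self]
      · rw [(flip_indep hF s).1 (fun i' hi' => by
          by_cases h : i' = s
          · subst h
            intro hm
            exact absurd (mem_sens.mp hm).1 (lt_irrefl _)
          · exact hother s le_rfl i' hi' h), st_flip_of_le le_rfl]
    · have his := (mem_sens.mp hs).1
      have hsF : s ∉ F := fun h => by
        have := hmax s h
        omega
      apply rst_congr
      · rw [mem_flipF hsF, mem_flip (by omega)]
      · exact (flip_indep hF s).2 i hi hs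
  have hj0y : Rst δ γ s0 (x ∆ F) j0 := (hR2 j0 hj0A).mpr hj0r
  obtain ⟨j, hj1, hj2⟩ := exists_isLast hj0t hj0y
  have hij : i ≤ j := hj0i.trans hj1
  have hjA : j = i ∨ i ∈ sens δ s0 x j := by
    by_contra hcon
    push Not at hcon
    refine hno j (by omega) hj2.1 ?_
    have hjF : j ∉ F := fun h => by
      have := hmax j h
      omega
    refine (rst_congr (mem_flipF hjF) ((flip_indep hF j).1 (fun i' hi' => ?_))).mp hj2.2.1
    by_cases h : i' = i
    · rw [h]; exact hcon.2
    · exact hother j hij i' hi' h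
  rw [cand_eq hj2, mem_insert]
  rcases hjA with h | h
  · left; exact h.symm
  · right
    rw [mem_sens]
    refine ⟨(mem_sens.mp h).1, ?_⟩
    rw [flip_erase hi, (flip_indep hF j).2 i hi h,
      (flip_indep (hF.mono (erase_subset i F)) j).1 (fun i' hi' =>
        hother j hij i' (mem_of_mem_erase hi') (ne_of_mem_erase hi'))]
    exact fun h' => (mem_sens.mp h).2 h'.symm

/-- Valid flip sets of `x` (`Bad` = bad strings of the lower program). -/
def Valid (δ : ℕ → Prop → S → S) (γ : ℕ → Prop → S → Option V) (s0 : S)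
    (Bad : Finset (Finset ℕ)) (t : ℕ) (x F : Finset ℕ) : Prop :=
  (∃ L, Zone δ γ s0 x t L ∧ F ⊆ newR δ γ s0 x L t) ∧ Indep δ s0 x F ∧
    ∀ F' ⊆ F, x ∆ F' ∉ Bad

theorem Valid.mono {δ : ℕ → Prop → S → S} {γ : ℕ → Prop → S → Option V} {s0 : S}
    {Bad : Finset (Finset ℕ)} {t : ℕ} {x F F' : Finset ℕ} (h : Valid δ γ s0 Bad t x F)
    (hF : F' ⊆ F) : Valid δ γ s0 Bad t x F' := by
  obtain ⟨⟨L, h1, h2⟩, h3, h4⟩ := h
  exact ⟨⟨L, h1, hF.trans h2⟩, h3.mono hF, fun G hG => h4 G (hG.trans hF)⟩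

theorem range_powerset_symmDiff {n : ℕ} {x F : Finset ℕ} (hx : x ⊆ range n) (hF : F ⊆ range n) :
    x ∆ F ⊆ range n := by
  intro j hj
  rcases mem_symmDiff.mp hj with h | h
  · exact hx h.1
  · exact hF h.1

open Classical in
/-- The encoding bound: few valid flip sets lead to a given string. -/
theorem card_preimages_le {δ : ℕ → Prop → S → S} {γ : ℕ → Prop → S → Option V} {s0 : S}
    {Bad : Finset (Finset ℕ)} {n t Λ : ℕ} (ht : t ≤ n)
    (hΛ : ∀ x ⊆ range n, x ∉ Bad → ∀ j ≤ n, #(sens δ s0 x j) ≤ Λ) :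
    ∀ (a : ℕ) (y : Finset ℕ), y ⊆ range n →
      #(((range n).powersetCard a).filter (fun F => Valid δ γ s0 Bad t (y ∆ F) F)) ≤
        (1 + Λ) ^ a := by
  intro a
  induction a with
  | zero =>
    intro y _
    refine (card_filter_le _ _).trans ?_
    simp
  | succ a ih =>
    intro y hy
    -- if the set is empty there is nothing to prove
    rcases (((range n).powersetCard (a + 1)).filter
      (fun F => Valid δ γ s0 Bad t (y ∆ F) F)).eq_empty_or_nonempty with he | ⟨F0, hF0⟩
    · rw [he]; simp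
    have hyB : y ∉ Bad := by
      obtain ⟨-, hv⟩ := mem_filter.mp hF0
      have := hv.2.2 F0 subset_rfl
      rwa [symmDiff_assoc, symmDiff_self, symmDiff_bot] at this
    have hcand : #(cand δ γ s0 y t) ≤ 1 + Λ :=
      card_cand_le (fun j hj => hΛ y hy hyB j (by omega))
    let W : ℕ → Finset (Finset ℕ) := fun i =>
      ((range n).powersetCard a).filter (fun F => Valid δ γ s0 Bad t (y ∆ {i} ∆ F) F)
    have hsub : ((range n).powersetCard (a + 1)).filter
        (fun F => Valid δ γ s0 Bad t (y ∆ F) F) ⊆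
        ((cand δ γ s0 y t).filter (fun i => i < n)).biUnion
          (fun i => (W i).image (fun F => insert i F)) := by
      intro F hF
      obtain ⟨hFc, hv⟩ := mem_filter.mp hF
      obtain ⟨hFn, hFa⟩ := mem_powersetCard.mp hFc
      have hne : F.Nonempty := by
        rw [← card_pos]; omega
      set i := F.max' hne with hi
      have hiF : i ∈ F := F.max'_mem hne
      have hin : i < n := mem_range.mp (hFn hiF)
      have hyF : y ∆ F ∆ F = y := by
        rw [symmDiff_assoc, symmDiff_self, symmDiff_bot]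
      have hic : i ∈ cand δ γ s0 y t := by
        obtain ⟨⟨L, hz, hFI⟩, hInd, -⟩ := hv
        have := max_mem_cand hz hInd hFI hiF (fun j hj => F.le_max' j hj)
        rwa [hyF] at this
      rw [mem_biUnion]
      refine ⟨i, mem_filter.mpr ⟨hic, hin⟩, ?_⟩
      rw [mem_image]
      refine ⟨F.erase i, ?_, insert_erase hiF⟩
      have hx : y ∆ {i} ∆ (F.erase i) = y ∆ F := by
        rw [symmDiff_assoc]
        congr 1
        ext j
        by_cases h : j = i
        · rw [h]; simp [mem_symmDiff, hiF]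
        · simp [mem_symmDiff, h]
      refine mem_filter.mpr ⟨mem_powersetCard.mpr ⟨(erase_subset i F).trans hFn, ?_⟩, ?_⟩
      · rw [card_erase_of_mem hiF, hFa]; rfl
      · rw [hx]
        exact hv.mono (erase_subset i F)
    refine (card_le_card hsub).trans ?_
    refine card_biUnion_le.trans ?_
    have h1 : ∀ i ∈ (cand δ γ s0 y t).filter (fun i => i < n),
        #((W i).image (fun F => insert i F)) ≤ (1 + Λ) ^ a := by
      intro i hi
      refine card_image_le.trans ?_
      refine ih (y ∆ {i}) (range_powerset_symmDiff hy ?_)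
      intro j hj
      rw [mem_singleton.mp hj]
      exact mem_range.mpr (mem_filter.mp hi).2
    refine (sum_le_card_nsmul _ _ _ h1).trans ?_
    rw [smul_eq_mul, pow_succ, mul_comm]
    exact Nat.mul_le_mul_left _ ((card_filter_le _ _).trans hcand)

theorem pow_le_choose_of {a b k : ℕ} (ha : 1 ≤ a) (h : a * (b + 1) ≤ k) :
    b ^ a ≤ k.choose a := by
  have h1 : (k + 1 - a) ^ a ≤ k.descFactorial a := Nat.pow_sub_le_descFactorial k a
  rw [Nat.descFactorial_eq_factorial_mul_choose] at h1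
  have h2 : a.factorial ≤ a ^ a := Nat.factorial_le_pow a
  have h3 : a * b ≤ k + 1 - a := by
    have : a * (b + 1) = a * b + a := by ring
    omega
  have h4 : (a * b) ^ a ≤ a ^ a * k.choose a :=
    (Nat.pow_le_pow_left h3 a).trans (h1.trans (Nat.mul_le_mul_right _ h2))
  rw [mul_pow] at h4
  exact Nat.le_of_mul_le_mul_left h4 (Nat.pow_pos ha)

open Classical in
/-- Strings within distance `a` of `Bad`. -/
noncomputable def near (n a : ℕ) (Bad : Finset (Finset ℕ)) : Finset (Finset ℕ) :=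
  ((range n).powerset).filter (fun x => ∃ F ⊆ range n, #F ≤ a ∧ x ∆ F ∈ Bad)

theorem card_small_le (n : ℕ) : ∀ a : ℕ,
    #(((range n).powerset).filter (fun F => #F ≤ a)) ≤ (n + 1) ^ a
  | 0 => by
      have : ((range n).powerset).filter (fun F => #F ≤ 0) ⊆ {∅} := by
        intro F hF
        have := (mem_filter.mp hF).2
        simpa using this
      simpa using card_le_card this
  | a + 1 => by
      have ih := card_small_le n a
      have hsub : ((range n).powerset).filter (fun F => #F ≤ a + 1) ⊆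
          ((((range n).powerset).filter (fun F => #F ≤ a)) ×ˢ range (n + 1)).image
            (fun p => if p.2 < n then insert p.2 p.1 else p.1) := by
        intro F hF
        obtain ⟨h1, h2⟩ := mem_filter.mp hF
        rw [mem_powerset] at h1
        rw [mem_image]
        rcases F.eq_empty_or_nonempty with rfl | ⟨i, hi⟩
        · exact ⟨(∅, n), by simp, by simp⟩
        · refine ⟨(F.erase i, i), ?_, ?_⟩
          · rw [mem_product]
            refine ⟨mem_filter.mpr ⟨mem_powerset.mpr ((erase_subset i F).trans h1), ?_⟩, ?_⟩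
            · show #(F.erase i) ≤ a
              rw [card_erase_of_mem hi]; omega
            · have := mem_range.mp (h1 hi)
              show i ∈ range (n + 1)
              rw [mem_range]; omega
          · show (if i < n then insert i (F.erase i) else F.erase i) = F
            rw [if_pos (mem_range.mp (h1 hi)), insert_erase hi]
      refine (card_le_card hsub).trans (card_image_le.trans ?_)
      rw [card_product, card_range, pow_succ]
      exact Nat.mul_le_mul_right _ ih

open Classical in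
theorem card_near_le (n a : ℕ) (Bad : Finset (Finset ℕ)) :
    #(near n a Bad) ≤ (n + 1) ^ a * #Bad := by
  have hsub : near n a Bad ⊆
      ((((range n).powerset).filter (fun F => #F ≤ a)) ×ˢ Bad).image
        (fun p => p.2 ∆ p.1) := by
    intro x hx
    obtain ⟨h1, F, hF1, hF2, hF3⟩ := mem_filter.mp hx
    rw [mem_image]
    refine ⟨(F, x ∆ F), ?_, ?_⟩
    · rw [mem_product]
      exact ⟨mem_filter.mpr ⟨mem_powerset.mpr hF1, hF2⟩, hF3⟩
    · show x ∆ F ∆ F = x
      rw [symmDiff_assoc, symmDiff_self, symmDiff_bot]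
  refine (card_le_card hsub).trans (card_image_le.trans ?_)
  rw [card_product]
  exact Nat.mul_le_mul_right _ (card_small_le n a)

open Classical in
/-- Step of SENS: one more reset register. -/
theorem sens_step (δ : ℕ → Prop → S → S) (γ : ℕ → Prop → S → Option V) (s0 : S) (v0 : V)
    (n a Λ : ℕ) (ha : 1 ≤ a) (Bad : Finset (Finset ℕ))
    (hΛ : ∀ x ⊆ range n, x ∉ Bad → ∀ t ≤ n, #(sens δ s0 x t) ≤ Λ) :
    ∃ Bad' : Finset (Finset ℕ), #Bad' * 2 ^ a ≤ (n + 1) * 2 ^ n + (n + 1) ^ a * #Bad * 2 ^ a ∧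
      ∀ x ⊆ range n, x ∉ Bad' → ∀ t ≤ n,
        #(sens (up δ γ) (s0, v0) x t) ≤ 2 * Λ + 1 + (1 + Λ) * (a * (2 * Λ + 3)) := by
  set b0 := 2 * (1 + Λ) with hb0
  -- strings with a large independent valid set at time `t`
  let X : ℕ → Finset (Finset ℕ) := fun t => ((range n).powerset).filter (fun x =>
    ∃ K ⊆ range n, a * (b0 + 1) ≤ #K ∧ ∀ F ⊆ K, #F = a → Valid δ γ s0 Bad t x F)
  have hX : ∀ t ≤ n, #(X t) * 2 ^ a ≤ 2 ^ n := by
    intro t ht
    let P : Finset ((_ : Finset ℕ) × Finset ℕ) := (X t).sigma (fun x =>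
      ((range n).powersetCard a).filter (fun F => Valid δ γ s0 Bad t x F))
    let Q : Finset ((_ : Finset ℕ) × Finset ℕ) := ((range n).powerset).sigma (fun y =>
      ((range n).powersetCard a).filter (fun F => Valid δ γ s0 Bad t (y ∆ F) F))
    have hQ : #Q ≤ 2 ^ n * (1 + Λ) ^ a := by
      rw [card_sigma]
      refine (sum_le_card_nsmul _ _ ((1 + Λ) ^ a) (fun y hy =>
        card_preimages_le ht hΛ a y (mem_powerset.mp hy))).trans ?_
      rw [smul_eq_mul, card_powerset, card_range]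
    have hP : #(X t) * b0 ^ a ≤ #P := by
      rw [card_sigma]
      refine le_trans (le_of_eq (by rw [smul_eq_mul])) (card_nsmul_le_sum _ _ (b0 ^ a)
        (fun x hx => ?_))
      obtain ⟨-, K, hK1, hK2, hK3⟩ := mem_filter.mp hx
      refine (pow_le_choose_of ha hK2).trans ?_
      rw [← card_powersetCard]
      apply card_le_card
      intro F hF
      obtain ⟨h1, h2⟩ := mem_powersetCard.mp hF
      exact mem_filter.mpr ⟨mem_powersetCard.mpr ⟨h1.trans hK1, h2⟩, hK3 F h1 h2⟩
    have hPQ : #P ≤ #Q := by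
      refine card_le_card_of_injOn (fun p => ⟨p.1 ∆ p.2, p.2⟩) ?_ ?_
      · rintro ⟨x, F⟩ hp
        rw [mem_coe, mem_sigma] at hp
        obtain ⟨hx, hF⟩ := hp
        obtain ⟨hF1, hF2⟩ := mem_filter.mp hF
        rw [mem_coe, mem_sigma]
        have hxn := mem_powerset.mp (mem_filter.mp hx).1
        have hFn := (mem_powersetCard.mp hF1).1
        refine ⟨mem_powerset.mpr (range_powerset_symmDiff hxn hFn), mem_filter.mpr ⟨hF1, ?_⟩⟩
        show Valid δ γ s0 Bad t (x ∆ F ∆ F) F
        rw [symmDiff_assoc, symmDiff_self, symmDiff_bot]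
        exact hF2
      · rintro ⟨x, F⟩ _ ⟨x', F'⟩ _ h
        simp only [Sigma.mk.injEq, heq_eq_eq] at h
        obtain ⟨h1, h2⟩ := h
        subst h2
        have : x = x' := by
          have := congrArg (fun z => z ∆ F) h1
          simpa [symmDiff_assoc] using this
        rw [this]
    have h1 : #(X t) * b0 ^ a ≤ 2 ^ n * (1 + Λ) ^ a := hP.trans (hPQ.trans hQ)
    rw [hb0, mul_pow, ← mul_assoc] at h1
    exact Nat.le_of_mul_le_mul_right h1 (by positivity)
  refine ⟨near n a Bad ∪ (range (n + 1)).biUnion X, ?_, ?_⟩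
  · have h1 : #(near n a Bad ∪ (range (n + 1)).biUnion X) ≤
        (n + 1) ^ a * #Bad + ∑ t ∈ range (n + 1), #(X t) :=
      (card_union_le _ _).trans (Nat.add_le_add (card_near_le n a Bad) card_biUnion_le)
    have h2 : (∑ t ∈ range (n + 1), #(X t)) * 2 ^ a ≤ (n + 1) * 2 ^ n := by
      rw [sum_mul]
      refine (sum_le_card_nsmul _ _ (2 ^ n) (fun t ht => hX t (by
        have := mem_range.mp ht
        omega))).trans ?_
      rw [card_range, smul_eq_mul]
    calc #(near n a Bad ∪ (range (n + 1)).biUnion X) * 2 ^ a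
        ≤ ((n + 1) ^ a * #Bad + ∑ t ∈ range (n + 1), #(X t)) * 2 ^ a :=
          Nat.mul_le_mul_right _ h1
      _ = (n + 1) ^ a * #Bad * 2 ^ a + (∑ t ∈ range (n + 1), #(X t)) * 2 ^ a := by ring
      _ ≤ _ := by omega
  · intro x hx hxB t ht
    rw [mem_union, not_or] at hxB
    obtain ⟨hxB1, hxB2⟩ := hxB
    have hgood : ∀ F ⊆ range n, #F ≤ a → x ∆ F ∉ Bad := by
      intro F hF1 hF2 hF3
      exact hxB1 (mem_filter.mpr ⟨mem_powerset.mpr hx, F, hF1, hF2, hF3⟩)
    have hxBad : x ∉ Bad := by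
      have h := hgood ∅ (empty_subset _) (by simp)
      rwa [show x ∆ (∅ : Finset ℕ) = x from symmDiff_bot x] at h
    obtain ⟨L, hz⟩ := exists_zone δ γ s0 x t
    have hsub := sens_up_subset (v0 := v0) hz
    have hI : ∀ i ∈ newR δ γ s0 x L t, i < t := fun i hi =>
      mem_range.mp (mem_filter.mp hi).1
    obtain ⟨K, hK1, hK2, hK3⟩ := exists_indep (δ := δ) (s0 := s0) (x := x) (Λ := Λ)
      (#(newR δ γ s0 x L t)) (newR δ γ s0 x L t) le_rfl
      (fun i hi => hΛ x hx hxBad i (by have := hI i hi; omega))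
    have hKn : K ⊆ range n := fun i hi => by
      have := hI i (hK1 hi)
      rw [mem_range]; omega
    have hKc : #K < a * (b0 + 1) := by
      by_contra hcon
      push Not at hcon
      apply hxB2
      rw [mem_biUnion]
      refine ⟨t, mem_range.mpr (by omega), mem_filter.mpr ⟨mem_powerset.mpr hx,
        K, hKn, hcon, ?_⟩⟩
      intro F hF1 hF2
      refine ⟨⟨L, hz, hF1.trans hK1⟩, hK2.mono hF1, fun F' hF' => ?_⟩
      exact hgood F' (hF'.trans (hF1.trans hKn)) ((card_le_card hF').trans hF2.le)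
    have e1 : #(sens δ s0 x t) ≤ Λ := hΛ x hx hxBad t ht
    have e2 : #(sens δ s0 x (L - 1)) ≤ Λ := hΛ x hx hxBad (L - 1) (by
      have := hz.1
      omega)
    have e3 := card_insert_le (L - 1) (sens δ s0 x (L - 1))
    have e4 : #(newR δ γ s0 x L t) ≤ (1 + Λ) * (a * (2 * Λ + 3)) := by
      refine hK3.trans (Nat.mul_le_mul_left _ ?_)
      have : b0 + 1 = 2 * Λ + 3 := by omega
      rw [← this]
      exact hKc.le
    have e5 := card_le_card hsub
    have e6 := card_union_le (sens δ s0 x t ∪ insert (L - 1) (sens δ s0 x (L - 1)))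
      (newR δ γ s0 x L t)
    have e7 := card_union_le (sens δ s0 x t) (insert (L - 1) (sens δ s0 x (L - 1)))
    omega

theorem card_bad {N n : ℕ} {B B' : ℕ} (_hN : 1 ≤ N) (hn : n + 1 ≤ 2 ^ N)
    (hB1 : B * 2 ^ (2 * N ^ 2 + 2 * N + 1) ≤ 2 ^ n)
    (hB'1 : B' * 2 ^ (2 * N + 1) ≤ (n + 1) * 2 ^ n + (n + 1) ^ (2 * N + 1) * B *
      2 ^ (2 * N + 1)) : B' * 2 ^ N ≤ 2 ^ n := by
  set N' := 2 * N ^ 2 + 2 * N + 1 with hN'
  have e1 : (n + 1) ^ (2 * N + 1) ≤ 2 ^ (N * (2 * N + 1)) := by
    rw [pow_mul]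
    exact Nat.pow_le_pow_left hn _
  have e2 : (n + 1) ^ (2 * N + 1) * B * 2 ^ (2 * N + 1) ≤ 2 ^ (N + n) := by
    calc (n + 1) ^ (2 * N + 1) * B * 2 ^ (2 * N + 1)
        ≤ 2 ^ (N * (2 * N + 1)) * B * 2 ^ (2 * N + 1) :=
          Nat.mul_le_mul_right _ (Nat.mul_le_mul_right _ e1)
      _ = (B * 2 ^ N') * 2 ^ N := by
          have : N * (2 * N + 1) + (2 * N + 1) = N' + N := by rw [hN']; ring
          calc 2 ^ (N * (2 * N + 1)) * B * 2 ^ (2 * N + 1)
              = B * 2 ^ (N * (2 * N + 1) + (2 * N + 1)) := by rw [pow_add]; ring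
            _ = B * 2 ^ (N' + N) := by rw [this]
            _ = (B * 2 ^ N') * 2 ^ N := by rw [pow_add]; ring
      _ ≤ 2 ^ n * 2 ^ N := Nat.mul_le_mul_right _ hB1
      _ = 2 ^ (N + n) := by rw [pow_add]; ring
  have e3 : (n + 1) * 2 ^ n ≤ 2 ^ (N + n) := by
    rw [pow_add]
    exact Nat.mul_le_mul_right _ hn
  have e4 : B' * 2 ^ (2 * N + 1) ≤ 2 ^ n * 2 ^ (N + 1) := by
    have : (2 : ℕ) ^ n * 2 ^ (N + 1) = 2 ^ (N + n) + 2 ^ (N + n) := by
      rw [← pow_add, show n + (N + 1) = (N + n) + 1 by ring, pow_succ]; ring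
    omega
  have e5 : B' * 2 ^ (2 * N + 1) = (B' * 2 ^ N) * 2 ^ (N + 1) := by
    rw [mul_assoc, ← pow_add]
    congr 2
    ring
  rw [e5] at e4
  exact Nat.le_of_mul_le_mul_right e4 (by positivity)

/-- The bound of one step is again polynomial. -/
theorem sens_poly (c : ℕ) : ∃ c' : ℕ, ∀ N : ℕ, 1 ≤ N →
    2 * (c * (2 * N ^ 2 + 2 * N + 1) ^ c) + 1 + (1 + c * (2 * N ^ 2 + 2 * N + 1) ^ c) *
      ((2 * N + 1) * (2 * (c * (2 * N ^ 2 + 2 * N + 1) ^ c) + 3)) ≤ c' * N ^ c' := by
  set D := c * 5 ^ c with hD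
  refine ⟨(2 * D + 1) + 3 * (1 + D) * (2 * D + 3) + (4 * c + 1), fun N hN => ?_⟩
  set N' := 2 * N ^ 2 + 2 * N + 1 with hN'
  have hN'5 : N' ≤ 5 * N ^ 2 := by
    rw [hN']; nlinarith
  set Λ := c * N' ^ c with hΛ
  have hΛ' : Λ ≤ D * N ^ (2 * c) := by
    rw [hΛ, hD]
    calc c * N' ^ c ≤ c * (5 * N ^ 2) ^ c :=
          Nat.mul_le_mul_left _ (Nat.pow_le_pow_left hN'5 _)
      _ = c * 5 ^ c * N ^ (2 * c) := by rw [mul_pow, ← pow_mul]; ring
  have hp1 : 1 ≤ N ^ (2 * c) := Nat.one_le_pow _ _ hN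
  have g1 : 2 * Λ + 3 ≤ (2 * D + 3) * N ^ (2 * c) := by nlinarith
  have g2 : 1 + Λ ≤ (1 + D) * N ^ (2 * c) := by nlinarith
  have g3 : 2 * Λ + 1 ≤ (2 * D + 1) * N ^ (2 * c) := by nlinarith
  have g4 : 2 * N + 1 ≤ 3 * N := by omega
  have g5 : N ^ (2 * c) ≤ N ^ (4 * c + 1) := Nat.pow_le_pow_right hN (by omega)
  have g6 : (1 + Λ) * ((2 * N + 1) * (2 * Λ + 3)) ≤
      3 * (1 + D) * (2 * D + 3) * N ^ (4 * c + 1) := by
    calc (1 + Λ) * ((2 * N + 1) * (2 * Λ + 3))
        ≤ ((1 + D) * N ^ (2 * c)) * ((3 * N) * ((2 * D + 3) * N ^ (2 * c))) :=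
          Nat.mul_le_mul g2 (Nat.mul_le_mul g4 g1)
      _ = 3 * (1 + D) * (2 * D + 3) * N ^ (4 * c + 1) := by
          rw [show 4 * c + 1 = 2 * c + 2 * c + 1 by ring, pow_succ, pow_add]; ring
  have g7 : (2 * D + 1) * N ^ (2 * c) ≤ (2 * D + 1) * N ^ (4 * c + 1) :=
    Nat.mul_le_mul_left _ g5
  set c' := (2 * D + 1) + 3 * (1 + D) * (2 * D + 3) + (4 * c + 1) with hc'
  calc 2 * Λ + 1 + (1 + Λ) * ((2 * N + 1) * (2 * Λ + 3))
      ≤ (2 * D + 1) * N ^ (4 * c + 1) + 3 * (1 + D) * (2 * D + 3) * N ^ (4 * c + 1) :=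
        Nat.add_le_add (g3.trans g7) g6
    _ = ((2 * D + 1) + 3 * (1 + D) * (2 * D + 3)) * N ^ (4 * c + 1) := by ring
    _ ≤ c' * N ^ c' := Nat.mul_le_mul (by omega) (Nat.pow_le_pow_right hN (by omega))

end Pool.Agent.Helper45.RC
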