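import Pool.Agent.Helper4.RC.Defs
import Pool.Agent.Helper45.RC.Sens

/-!
SENS for cascade programs given by instructions (`Helper4.RC.Instr`), strings in
`Fin n → ZMod 2`, states `endSt`.
-/

namespace Pool.Agent.Helper45.RC

open Finset Helper4.RC
open scoped symmDiff

variable {S V : Type}

/-- Relabelling of states. -/
theorem st_map {S1 S2 : Type} {δ1 : ℕ → Prop → S1 → S1} {δ2 : ℕ → Prop → S2 → S2} (e : S1 → S2)
    (he : ∀ t b s, e (δ1 t b s) = δ2 t b (e s)) (s0 : S1) (x : Finset ℕ) :
    ∀ t, st δ2 (e s0) x t = e (st δ1 s0 x t)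
  | 0 => rfl
  | t + 1 => by
      show δ2 t (t ∈ x) (st δ2 (e s0) x t) = e (δ1 t (t ∈ x) (st δ1 s0 x t))
      rw [st_map e he s0 x t, he]

theorem sens_map {S1 S2 : Type} {δ1 : ℕ → Prop → S1 → S1} {δ2 : ℕ → Prop → S2 → S2} (e : S1 → S2)
    (he : ∀ t b s, e (δ1 t b s) = δ2 t b (e s)) (hinj : Function.Injective e) (s0 : S1)
    (x : Finset ℕ) (t : ℕ) : sens δ2 (e s0) x t = sens δ1 s0 x t := by
  ext i
  rw [mem_sens, mem_sens, st_map e he, st_map e he, hinj.ne_iff]

/-- The lower registers of an instruction. -/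
def low {m w : ℕ} (v : Fin w) (c : Instr (m + 1) w) : Instr m w where
  rule j q := c.rule j.castSucc (Fin.snoc (α := fun _ => Fin w) q v)
  loc j q q' h := by
    apply c.loc
    intro l hl
    have hlm : l.val < m := by
      have h1 : l.val < j.val := hl
      have := j.2
      omega
    have hl' : l = (⟨l.val, hlm⟩ : Fin m).castSucc := rfl
    rw [hl', Fin.snoc_castSucc, Fin.snoc_castSucc]
    exact h _ hl

/-- The top register of an instruction. -/
def top {m w : ℕ} (v : Fin w) (c : Instr (m + 1) w) (q : Fin m → Fin w) : Option (Fin w) :=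
  c.rule (Fin.last m) (Fin.snoc (α := fun _ => Fin w) q v)

theorem act_snoc {m w : ℕ} (v : Fin w) (c : Instr (m + 1) w) (q : Fin m → Fin w) (u : Fin w) :
    c.act (Fin.snoc (α := fun _ => Fin w) q u) =
      Fin.snoc (α := fun _ => Fin w) ((low v c).act q) ((top v c q).getD u) := by
  funext j
  refine Fin.lastCases ?_ (fun i => ?_) j
  · rw [Fin.snoc_last]
    show (c.rule (Fin.last m) (Fin.snoc (α := fun _ => Fin w) q u)).getD
      (Fin.snoc (α := fun _ => Fin w) q u (Fin.last m)) = _
    rw [Fin.snoc_last]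
    unfold top
    congr 1
    apply c.loc
    intro l hl
    have hlm : l.val < m := hl
    have hl' : l = (⟨l.val, hlm⟩ : Fin m).castSucc := rfl
    rw [hl', Fin.snoc_castSucc, Fin.snoc_castSucc]
  · rw [Fin.snoc_castSucc]
    show (c.rule i.castSucc (Fin.snoc (α := fun _ => Fin w) q u)).getD
      (Fin.snoc (α := fun _ => Fin w) q u i.castSucc) = _
    rw [Fin.snoc_castSucc]
    show _ = ((low v c).rule i q).getD (q i)
    congr 1
    apply c.loc
    intro l hl
    have hlm : l.val < m := by
      have h1 : l.val < i.val := hl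
      have := i.2
      omega
    have hl' : l = (⟨l.val, hlm⟩ : Fin m).castSucc := rfl
    rw [hl', Fin.snoc_castSucc, Fin.snoc_castSucc]

/-- SENS for instructions. -/
theorem sens_instr (m : ℕ) : ∃ c : ℕ, ∀ (w : ℕ) (C : ℕ → Prop → Instr m w) (q : Fin m → Fin w)
    (N n : ℕ), 1 ≤ N → n + 1 ≤ 2 ^ N → ∃ Bad : Finset (Finset ℕ), #Bad * 2 ^ N ≤ 2 ^ n ∧
      ∀ x ⊆ range n, x ∉ Bad → ∀ t ≤ n, #(sens (fun t b => (C t b).act) q x t) ≤ c * N ^ c := by
  induction m with
  | zero =>
    refine ⟨0, fun w C q N n _ _ => ⟨∅, by simp, fun x _ _ t _ => ?_⟩⟩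
    have : sens (fun t b => (C t b).act) q x t = ∅ := by
      rw [eq_empty_iff_forall_notMem]
      intro i hi
      exact (mem_sens.mp hi).2 (Subsingleton.elim _ _)
    rw [this]
    simp
  | succ m ih =>
    obtain ⟨c, hc⟩ := ih
    obtain ⟨c', hc'⟩ := sens_poly c
    refine ⟨c', fun w C q N n hN hn => ?_⟩
    set v := q (Fin.last m) with hv
    obtain ⟨Bad, hB1, hB2⟩ := hc w (fun t b => low v (C t b)) (fun i => q i.castSucc)
      (2 * N ^ 2 + 2 * N + 1) n (by omega)
      (hn.trans (Nat.pow_le_pow_right (by norm_num) (by nlinarith)))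
    obtain ⟨Bad', hB'1, hB'2⟩ := sens_step (fun t b => (low v (C t b)).act)
      (fun t b s => top v (C t b) s) (fun i => q i.castSucc) v n (2 * N + 1)
      (c * (2 * N ^ 2 + 2 * N + 1) ^ c) (by omega) Bad hB2
    refine ⟨Bad', card_bad hN hn hB1 hB'1, fun x hx hxB t ht => ?_⟩
    have h1 := hB'2 x hx hxB t ht
    have h2 : sens (fun t b => (C t b).act) q x t =
        sens (up (fun t b => (low v (C t b)).act) (fun t b s => top v (C t b) s))
          (fun i => q i.castSucc, v) x t := by
      have he : ∀ t b (s : (Fin m → Fin w) × Fin w),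
          Fin.snoc (α := fun _ => Fin w)
            (up (fun t b => (low v (C t b)).act) (fun t b s => top v (C t b) s) t b s).1
            (up (fun t b => (low v (C t b)).act) (fun t b s => top v (C t b) s) t b s).2 =
            (C t b).act (Fin.snoc (α := fun _ => Fin w) s.1 s.2) := by
        intro t b s
        exact (act_snoc v (C t b) s.1 s.2).symm
      have hq : Fin.snoc (α := fun _ => Fin w) (fun i => q i.castSucc) v = q := by
        funext j
        refine Fin.lastCases ?_ (fun i => ?_) j
        · rw [Fin.snoc_last]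
        · rw [Fin.snoc_castSucc]
      have := sens_map (δ1 := up (fun t b => (low v (C t b)).act)
        (fun t b s => top v (C t b) s)) (δ2 := fun t b => (C t b).act)
        (fun s : (Fin m → Fin w) × Fin w => Fin.snoc (α := fun _ => Fin w) s.1 s.2) he ?_
        (fun i => q i.castSucc, v) x t
      · rw [← this]
        congr 1
        exact hq.symm
      · rintro ⟨a, b⟩ ⟨a', b'⟩ h
        have h' : Fin.snoc (α := fun _ => Fin w) a b = Fin.snoc (α := fun _ => Fin w) a' b' := h
        refine Prod.ext ?_ ?_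
        · funext i
          have := congrFun h' i.castSucc
          rwa [Fin.snoc_castSucc, Fin.snoc_castSucc] at this
        · have := congrFun h' (Fin.last m)
          rwa [Fin.snoc_last, Fin.snoc_last] at this
    rw [h2]
    exact h1.trans (hc' N hN)

/-! ### Bit strings -/

/-- The set of the ones. -/
def toSet {n : ℕ} (x : Fin n → ZMod 2) : Finset ℕ :=
  (univ.filter (fun i => x i = 1)).image Fin.val

theorem mem_toSet {n : ℕ} {x : Fin n → ZMod 2} {j : ℕ} :
    j ∈ toSet x ↔ ∃ h : j < n, x ⟨j, h⟩ = 1 := by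
  constructor
  · intro h
    obtain ⟨i, hi, rfl⟩ := mem_image.mp h
    exact ⟨i.2, (mem_filter.mp hi).2⟩
  · rintro ⟨h, h1⟩
    exact mem_image.mpr ⟨⟨j, h⟩, mem_filter.mpr ⟨mem_univ _, h1⟩, rfl⟩

theorem toSet_subset {n : ℕ} (x : Fin n → ZMod 2) : toSet x ⊆ range n := by
  intro j hj
  obtain ⟨h, -⟩ := mem_toSet.mp hj
  exact mem_range.mpr h

theorem zmod2_cases (a : ZMod 2) : a = 0 ∨ a = 1 := by
  revert a
  decide

theorem toSet_inj {n : ℕ} : Function.Injective (toSet (n := n)) := by
  intro x y h
  funext i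
  have h1 : i.val ∈ toSet x ↔ i.val ∈ toSet y := by rw [h]
  rw [mem_toSet, mem_toSet] at h1
  have h2 : x i = 1 ↔ y i = 1 :=
    ⟨fun h3 => (h1.mp ⟨i.2, h3⟩).2, fun h3 => (h1.mpr ⟨i.2, h3⟩).2⟩
  rcases zmod2_cases (x i) with hx | hx <;> rcases zmod2_cases (y i) with hy | hy
  · rw [hx, hy]
  · rw [hx] at h2
    exact absurd (h2.mpr hy) (by decide)
  · rw [hy] at h2
    exact absurd (h2.mp hx) (by decide)
  · rw [hx, hy]

theorem toSet_flip {n : ℕ} (x : Fin n → ZMod 2) (i : Fin n) :
    toSet (Function.update x i (x i + 1)) = toSet x ∆ {i.val} := by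
  ext j
  rw [mem_symmDiff, mem_singleton, mem_toSet, mem_toSet]
  by_cases h : j = i.val
  · subst h
    simp only [Fin.eta, Function.update_self, i.2, exists_true_left, not_true_eq_false, and_false,
      true_and, false_or]
    rcases zmod2_cases (x i) with hx | hx
    · rw [hx]; decide
    · rw [hx]; decide
  · constructor
    · rintro ⟨h1, h2⟩
      left
      refine ⟨⟨h1, ?_⟩, h⟩
      rwa [Function.update_of_ne (fun h3 => h (congrArg Fin.val h3))] at h2
    · rintro (⟨⟨h1, h2⟩, -⟩ | ⟨h1, -⟩)
      · refine ⟨h1, ?_⟩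
        rwa [Function.update_of_ne (fun h3 => h (congrArg Fin.val h3))]
      · exact absurd h1 h

open Classical in
/-- Transition maps for propositions as bits. -/
noncomputable def bitTr (L : ℕ → ZMod 2 → V → V) : ℕ → Prop → V → V :=
  fun t P s => L t (if P then 1 else 0) s

theorem endSt_eq (L : ℕ → ZMod 2 → V → V) (q : V) : ∀ (n : ℕ) (x : Fin n → ZMod 2),
    endSt L q n x = st (bitTr L) q (toSet x) n
  | 0, _ => rfl
  | n + 1, x => by
      show L n (x (Fin.last n)) (endSt L q n fun i => x i.castSucc) =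
        bitTr L n (n ∈ toSet x) (st (bitTr L) q (toSet x) n)
      rw [endSt_eq L q n]
      have h1 : ∀ s, bitTr L n (n ∈ toSet x) s = L n (x (Fin.last n)) s := by
        intro s
        unfold bitTr
        rcases zmod2_cases (x (Fin.last n)) with hx | hx
        · rw [if_neg, hx]
          rw [mem_toSet]
          rintro ⟨h, h2⟩
          have : x (Fin.last n) = 1 := h2
          rw [hx] at this
          exact absurd this (by decide)
        · rw [if_pos, hx]
          exact mem_toSet.mpr ⟨by omega, hx⟩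
      rw [h1]
      congr 1
      apply st_congr
      intro j hj
      rw [mem_toSet, mem_toSet]
      constructor
      · rintro ⟨h2, h3⟩
        exact ⟨by omega, h3⟩
      · rintro ⟨h2, h3⟩
        exact ⟨hj, h3⟩

open Classical in
/-- SENS, final form: for programs of length `n` over cascades of `m` reset registers, at
most `2 ^ (n - N)` strings have more than `c * N ^ c` bits whose flip changes the final
state. -/
theorem sens_end (m : ℕ) : ∃ c : ℕ, ∀ (w : ℕ) (C : ℕ → ZMod 2 → Instr m w) (q : Fin m → Fin w)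
    (N n : ℕ), 1 ≤ N → n + 1 ≤ 2 ^ N →
      #(univ.filter (fun x : Fin n → ZMod 2 => c * N ^ c <
        #(univ.filter (fun i : Fin n =>
          endSt (fun i b => (C i b).act) q n (Function.update x i (x i + 1)) ≠
            endSt (fun i b => (C i b).act) q n x)))) * 2 ^ N ≤ 2 ^ n := by
  obtain ⟨c, hc⟩ := sens_instr m
  refine ⟨c, fun w C q N n hN hn => ?_⟩
  obtain ⟨Bad, hB1, hB2⟩ := hc w (fun t P => C t (if P then 1 else 0)) q N n hN hn
  refine le_trans (Nat.mul_le_mul_right _ ?_) hB1
  refine card_le_card_of_injOn toSet ?_ (toSet_inj.injOn)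
  intro x hx
  rw [mem_coe, mem_filter] at hx
  have hx2 := hx.2
  by_contra hB
  have h1 := hB2 (toSet x) (toSet_subset x) hB n le_rfl
  have h2 : #(univ.filter (fun i : Fin n =>
          endSt (fun i b => (C i b).act) q n (Function.update x i (x i + 1)) ≠
            endSt (fun i b => (C i b).act) q n x)) ≤
      #(sens (fun t b => (C t (if b then 1 else 0)).act) q (toSet x) n) := by
    refine card_le_card_of_injOn Fin.val ?_ Fin.val_injective.injOn
    intro i hi
    rw [mem_coe, mem_filter] at hi
    rw [mem_coe, mem_sens]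
    refine ⟨i.2, ?_⟩
    have h3 := hi.2
    rw [endSt_eq, endSt_eq, toSet_flip] at h3
    exact h3
  omega

end Pool.Agent.Helper45.RC
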