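import Mathlib

/-!
The alternating sum `h_k(l; q) = ∑ a ≤ k, (-1)^a C(k,a) (1 - a q)^l`: it vanishes for `l < k`,
is at least `k! q^k` for `l ≥ k` and at most `k! q^k C(l,k)`, if `k q ≤ 1`.
-/

namespace Pool.Agent.Helper45.RC

open Finset

/-- The alternating sum. -/
noncomputable def hk (k l : ℕ) (q c : ℝ) : ℝ :=
  ∑ a ∈ range (k + 1), (-1 : ℝ) ^ a * (k.choose a) * (c - a * q) ^ l

theorem hk_zero_left (l : ℕ) (q c : ℝ) : hk 0 l q c = c ^ l := by
  simp [hk]

theorem hk_zero_right (k : ℕ) (q c : ℝ) : hk k 0 q c = if k = 0 then 1 else 0 := by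
  unfold hk
  simp only [pow_zero, mul_one]
  have h := Int.alternating_sum_range_choose (n := k)
  have h2 : ((∑ a ∈ range (k + 1), ((-1) ^ a * (k.choose a : ℤ)) : ℤ) : ℝ) =
      ((if k = 0 then 1 else 0 : ℤ) : ℝ) := by rw [h]
  push_cast at h2
  rw [h2]

theorem hk_succ_succ (k l : ℕ) (q c : ℝ) :
    hk (k + 1) (l + 1) q c = c * hk (k + 1) l q c + (k + 1) * q * hk k l q (c - q) := by
  unfold hk
  have e1 : ∀ a : ℕ, (-1 : ℝ) ^ a * ((k + 1).choose a) * (c - a * q) ^ (l + 1) =
      c * ((-1 : ℝ) ^ a * ((k + 1).choose a) * (c - a * q) ^ l) -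
        q * ((-1 : ℝ) ^ a * (a * (k + 1).choose a) * (c - a * q) ^ l) := by
    intro a
    rw [pow_succ]
    ring
  rw [sum_congr rfl (fun a _ => e1 a), sum_sub_distrib, ← mul_sum, ← mul_sum]
  have e2 : ∑ a ∈ range (k + 1 + 1), (-1 : ℝ) ^ a * (a * (k + 1).choose a) * (c - a * q) ^ l =
      -(k + 1) * ∑ a ∈ range (k + 1), (-1 : ℝ) ^ a * (k.choose a) * (c - q - a * q) ^ l := by
    rw [sum_range_succ', mul_sum]
    simp only [Nat.cast_zero, zero_mul, mul_zero, add_zero]
    refine sum_congr rfl fun a _ => ?_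
    have h : ((a + 1 : ℕ) : ℝ) * ((k + 1).choose (a + 1) : ℕ) = (k + 1) * (k.choose a : ℕ) := by
      have := Nat.add_one_mul_choose_eq k a
      have h2 : (((k + 1) * k.choose a : ℕ) : ℝ) = (((k + 1).choose (a + 1) * (a + 1) : ℕ) : ℝ) := by
        exact_mod_cast this
      push_cast at h2 ⊢
      linarith
    have h3 : c - ((a + 1 : ℕ) : ℝ) * q = c - q - a * q := by push_cast; ring
    rw [h, h3, pow_succ]
    ring
  rw [e2]
  ring

theorem hk_eq_zero : ∀ (l k : ℕ) (q c : ℝ), l < k → hk k l q c = 0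
  | 0, k, q, c, h => by
      rw [hk_zero_right, if_neg (by omega)]
  | l + 1, 0, q, c, h => by omega
  | l + 1, k + 1, q, c, h => by
      rw [hk_succ_succ, hk_eq_zero l (k + 1) q c (by omega), hk_eq_zero l k q _ (by omega)]
      ring

theorem hk_nonneg : ∀ (l k : ℕ) (q c : ℝ), 0 ≤ q → k * q ≤ c → 0 ≤ hk k l q c
  | 0, k, q, c, _, _ => by
      rw [hk_zero_right]
      split_ifs <;> norm_num
  | l + 1, 0, q, c, _, h => by
      rw [hk_zero_left]
      simp only [Nat.cast_zero, zero_mul] at h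
      positivity
  | l + 1, k + 1, q, c, hq, h => by
      rw [hk_succ_succ]
      push_cast at h
      have hc : 0 ≤ c := le_trans (by positivity) h
      have h1 := hk_nonneg l (k + 1) q c hq (by push_cast; exact h)
      have h2 := hk_nonneg l k q (c - q) hq (by linarith)
      positivity

theorem hk_diag : ∀ (k : ℕ) (q c : ℝ), hk k k q c = k.factorial * q ^ k
  | 0, q, c => by simp [hk]
  | k + 1, q, c => by
      rw [hk_succ_succ, hk_eq_zero k (k + 1) q c (by omega), hk_diag k q]
      rw [Nat.factorial_succ, pow_succ]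
      push_cast
      ring

theorem hk_mono_right (l k : ℕ) (q : ℝ) (hq : 0 ≤ q) (h : k * q ≤ 1) :
    hk k l q 1 ≤ hk k (l + 1) q 1 := by
  rcases k with _ | k
  · rw [hk_zero_left, hk_zero_left]
    simp
  · rw [hk_succ_succ]
    push_cast at h
    have h2 := hk_nonneg l k q (1 - q) hq (by linarith)
    have : 0 ≤ ((k : ℝ) + 1) * q * hk k l q (1 - q) := by positivity
    linarith

/-- Lower bound. -/
theorem hk_lower (k l : ℕ) (q : ℝ) (hq : 0 ≤ q) (h : k * q ≤ 1) (hl : k ≤ l) :
    k.factorial * q ^ k ≤ hk k l q 1 := by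
  induction l, hl using Nat.le_induction with
  | base => rw [hk_diag]
  | succ l _ ih => exact ih.trans (hk_mono_right l k q hq h)

/-- Upper bound. -/
theorem hk_le : ∀ (l k : ℕ) (q c : ℝ), 0 ≤ q → k * q ≤ c → c ≤ 1 →
    hk k l q c ≤ k.factorial * q ^ k * l.choose k
  | 0, k, q, c, _, _, _ => by
      rw [hk_zero_right]
      rcases k with _ | k
      · simp
      · simp
  | l + 1, 0, q, c, _, h, hc => by
      rw [hk_zero_left]
      simp only [Nat.cast_zero, zero_mul] at h
      simpa using pow_le_one₀ h hc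
  | l + 1, k + 1, q, c, hq, h, hc => by
      rw [hk_succ_succ]
      push_cast at h
      have hc0 : 0 ≤ c := le_trans (by positivity) h
      have h1 := hk_le l (k + 1) q c hq (by push_cast; exact h) hc
      have h1' := hk_nonneg l (k + 1) q c hq (by push_cast; exact h)
      have h2 := hk_le l k q (c - q) hq (by linarith) (by linarith)
      have h3 : c * hk (k + 1) l q c ≤ hk (k + 1) l q c := by nlinarith
      have h4 : ((k : ℝ) + 1) * q * hk k l q (c - q) ≤
          ((k : ℝ) + 1) * q * (k.factorial * q ^ k * l.choose k) :=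
        mul_le_mul_of_nonneg_left h2 (by positivity)
      have h5 : (((k + 1).factorial : ℕ) : ℝ) * q ^ (k + 1) * ((l + 1).choose (k + 1) : ℕ) =
          ((k : ℝ) + 1) * q * (k.factorial * q ^ k * l.choose k) +
          (((k + 1).factorial : ℕ) : ℝ) * q ^ (k + 1) * (l.choose (k + 1) : ℕ) := by
        rw [Nat.choose_succ_succ, Nat.factorial_succ, pow_succ]
        push_cast
        ring
      rw [h5]
      linarith

end Pool.Agent.Helper45.RC
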